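import Mathlib
import Pool.Agent.Y666.SP.Stm2

/-!
# SP2-GLUE (job 7790, helper96)
-/

set_option autoImplicit false

open Cardinal OrderDual

namespace Pool.Agent.Y96.SP

open Pool.Agent.Y666.SP

theorem glue (h1 : S_GZ) (h2 : S_KINC) (h3 : S_STPEXT) : S_GLUE := by
  classical
  intro α _ w hw θ κ₀ hκ₀ hκθ hlim hQ T hS hSU x₀ hx₀ σ hσ
  let ι : Type 1 := {k : Cardinal.{0} // κ₀ ≤ k ∧ k ≤ θ}
  let S' : ι → Set α := fun k => if k.1 < θ then σ k.1 else T
  have hlt : ∀ k : ι, k.1 < θ → S' k = σ k.1 := fun k hk => if_pos hk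
  have hge : ∀ k : ι, ¬ k.1 < θ → S' k = T := fun k hk => if_neg hk
  have hinf : ∀ k : ι, ℵ₀ ≤ k.1 := fun k => hκ₀.trans k.2.1
  have hmono : ∀ i j : ι, i ≤ j → S' i ⊆ S' j := by
    intro i j hij
    by_cases hj : j.1 < θ
    · have hi : i.1 < θ := lt_of_le_of_lt hij hj
      rw [hlt i hi, hlt j hj]
      rcases (show i.1 ≤ j.1 from hij).eq_or_lt with h | h
      · rw [h]
      · exact (hσ.mono i.1 j.1 i.2.1 h hj).1
    · rw [hge j hj]
      by_cases hi : i.1 < θ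
      · rw [hlt i hi]
        exact hσ.sub i.1 i.2.1 hi
      · rw [hge i hi]
  have hx' : ∀ i : ι, x₀ ∈ S' i := by
    intro i
    by_cases hi : i.1 < θ
    · rw [hlt i hi]
      exact hσ.mem i.1 i.2.1 hi
    · rw [hge i hi]
      exact hx₀
  have hstar : ∀ i : ι, KStar i.1 (S' i) ∧ KStarU i.1 (S' i) := by
    intro i
    by_cases hi : i.1 < θ
    · rw [hlt i hi]
      exact hσ.star i.1 i.2.1 hi
    · have hiθ : i.1 = θ := le_antisymm i.2.2 (not_lt.1 hi)
      rw [hge i hi, hiθ]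
      exact ⟨hS, hSU⟩
  have main := h1 ι α S' hmono ?_ ?_ ?_ ⟨θ, hκθ.le, le_rfl⟩
  · rw [hge ⟨θ, hκθ.le, le_rfl⟩ (lt_irrefl θ)] at main
    exact main
  · -- bottom
    intro i hi
    have hi0 : i.1 = κ₀ := by
      by_contra hne
      have : κ₀ < i.1 := lt_of_le_of_ne i.2.1 (Ne.symm hne)
      exact hi ⟨κ₀, le_rfl, hκθ.le⟩ this
    have hiθ : i.1 < θ := by rw [hi0]; exact hκθ
    exact hQ i.1 (hinf i) hiθ α w hw (S' i)
      (h2 α w hw i.1 (hinf i) (S' i) (hstar i).1 (hstar i).2).1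
  · -- successor
    intro j i hji hmax
    have hjθ : j.1 < θ := lt_of_lt_of_le hji i.2.2
    have hsθ : Order.succ j.1 < θ := hlim.succ_lt hjθ
    have hle : Order.succ j.1 ≤ i.1 := Order.succ_le_of_lt hji
    have hi : i.1 = Order.succ j.1 := by
      by_contra hne
      have h : Order.succ j.1 < i.1 := lt_of_le_of_ne hle (Ne.symm hne)
      have h' := hmax ⟨Order.succ j.1, j.2.1.trans (Order.le_succ _), hsθ.le⟩ h
      exact absurd (lt_of_lt_of_le (Order.lt_succ j.1) (show Order.succ j.1 ≤ j.1 from h'))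
        (lt_irrefl _)
    have hiθ : i.1 < θ := by rw [hi]; exact hsθ
    have hI := (h2 α w hw i.1 (hinf i) (S' i) (hstar i).1 (hstar i).2).1
    rw [hlt j hjθ]
    rw [hlt i hiθ, hi] at hI ⊢
    exact h3 α w hw j.1 (hinf j) x₀ (σ (Order.succ j.1)) (σ j.1) (hσ.step j.1 j.2.1 hsθ)
      (fun x hx => Order.lt_succ_iff.1 (hI x hx))
      (hQ (Order.succ j.1) ((hinf j).trans (Order.le_succ _)) hsθ)
  · -- limit
    rintro i ⟨j0, hj0⟩ hnm x hx
    obtain ⟨hI, hB⟩ := h2 α w hw i.1 (hinf i) (S' i) (hstar i).1 (hstar i).2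
    have e1 := hI x hx
    have e2 := hB x hx x₀ (hx' i)
    have e3 := hB x₀ (hx' i) x hx
    have e0 : κ₀ < i.1 := lt_of_le_of_lt j0.2.1 hj0
    set m0 := max κ₀ (max (cd (Inc (S' i) x)) (max (cd (Bt (S' i) x x₀)) (cd (Bt (S' i) x₀ x))))
      with hm0
    have hm0i : m0 < i.1 := max_lt e0 (max_lt e1 (max_lt e2 e3))
    obtain ⟨k, hki, hmk⟩ := hnm ⟨m0, le_max_left _ _, hm0i.le.trans i.2.2⟩ hm0i
    have hmk' : m0 < k.1 := hmk
    have hki' : k.1 < i.1 := hki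
    have hkθ : k.1 < θ := lt_of_lt_of_le hki' i.2.2
    refine ⟨k, hki, ?_⟩
    have hC : C3 k.1 x₀ (S' i) (S' k) := by
      rw [hlt k hkθ]
      by_cases hi : i.1 < θ
      · rw [hlt i hi]
        exact (hσ.mono k.1 i.1 k.2.1 hki' hi).2
      · rw [hge i hi]
        exact hσ.top k.1 k.2.1 hkθ
    exact hC x hx
      (lt_of_le_of_lt ((le_max_left _ _).trans (le_max_right _ _)) hmk')
      (lt_of_le_of_lt ((le_max_left _ _).trans ((le_max_right _ _).trans (le_max_right _ _))) hmk')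
      (lt_of_le_of_lt ((le_max_right _ _).trans ((le_max_right _ _).trans (le_max_right _ _))) hmk')

end Pool.Agent.Y96.SP
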