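import Mathlib
import Pool.Agent.Y666.SP.Stm2

/-!
# SP2-QL (job 7791, helper96)
-/

set_option autoImplicit false

open Cardinal OrderDual

namespace Pool.Agent.Y96.SP

open Pool.Agent.Y666.SP

theorem hasSpine_empty {α : Type} [PartialOrder α] : HasSpine (∅ : Set α) :=
  ⟨∅, subset_rfl, Set.pairwise_empty _, id, fun _ h => h, fun _ h => absurd h (Set.notMem_empty _),
    fun _ h => absurd h (Set.notMem_empty _)⟩

theorem ql (h1 : S_RED2) (h2 : S_KINC) (h3 : S_TOWER) (h4 : S_GLUE) : S_QL := by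
  intro θ hθ hlim hQ α _ w hw E hE
  have hθ0 : ℵ₀ ≤ θ := hθ.le
  refine h1 α w hw θ hθ0 E (fun x hx => (hE x hx).le) ?_
  intro T _ hS hSU
  rcases T.eq_empty_or_nonempty with rfl | ⟨x0, hx0⟩
  · exact hasSpine_empty
  · obtain ⟨hI, _⟩ := h2 α w hw θ hθ0 T hS hSU
    have hk : max ℵ₀ (Order.succ (cd (Inc T x0))) < θ :=
      max_lt hθ (hlim.succ_lt (hI x0 hx0))
    have hlt : cd (Inc T x0) < max ℵ₀ (Order.succ (cd (Inc T x0))) :=
      lt_max_of_lt_right (Order.lt_succ _)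
    obtain ⟨σ, hσ⟩ := h3 α w hw θ _ (le_max_left _ _) T x0 hx0 hlt
    exact h4 α w hw θ _ (le_max_left _ _) hk hlim hQ T hS hSU x0 hx0 σ hσ

end Pool.Agent.Y96.SP
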